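import Pool.Agent.Lib.MP_f20cd2_co.DP.MainQ

set_option autoImplicit false

namespace Pool.Agent.Results.MP_f20cd2_co.LongCycle

open Pool.Agent.Lib.MP_f20cd2_co.DP

theorem result (ε : ℝ) (hε : 0 < ε) : ∃ t C : ℕ, ∀ (V : Type) [Finite V] (G : SimpleGraph V),
    3 ≤ Nat.card V →
    (∀ S : Set V, 1 < Nat.card (G.induce Sᶜ).ConnectedComponent →
      t * Nat.card (G.induce Sᶜ).ConnectedComponent ≤ S.ncard) →
    ∃ (v : V) (c : G.Walk v v) (ρ : V → V), c.IsCycle ∧ (1 - ε) * Nat.card V ≤ c.length ∧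
      (∀ w, ρ w ∈ c.support) ∧ ∀ x ∈ c.support, ρ x = x ∧ (ρ ⁻¹' {x}).ncard ≤ C ∧
        (G.induce (ρ ⁻¹' {x})).Connected :=
  long_cycle ε hε

end Pool.Agent.Results.MP_f20cd2_co.LongCycle
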