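import Pool.Agent.Lib.MP_f20cd2_co.HM.Main

set_option autoImplicit false

namespace Pool.Agent.Results.MP_f20cd2_co.PolylogHamiltonian

open Pool.Agent.Lib.MP_f20cd2_co.HM

theorem result : ∃ (C : ℝ) (e : ℕ), 0 < C ∧
    ∀ (V : Type) [Fintype V] [DecidableEq V] (G : SimpleGraph V), 3 ≤ Fintype.card V →
    (∀ S : Set V, 1 < Nat.card (G.induce Sᶜ).ConnectedComponent →
      C * Real.log (Fintype.card V) ^ e * Nat.card (G.induce Sᶜ).ConnectedComponent ≤ S.ncard) →
    G.IsHamiltonian :=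
  ⟨2000 ^ 760, 760, by positivity, fun _ _ _ _ h3 hG => ham_log h3 hG⟩

end Pool.Agent.Results.MP_f20cd2_co.PolylogHamiltonian
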