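import Pool.Agent.Lib.MP_f20cd2_co.EX.Main

set_option autoImplicit false

namespace Pool.Agent.Results.MP_f20cd2_co.ToughAP

theorem result : ∃ c : ℝ, 0 < c ∧ ∀ (V : Type) [Finite V] (G : SimpleGraph V),
    (∀ S : Set V, 1 < Nat.card (G.induce Sᶜ).ConnectedComponent →
      c * Nat.card (G.induce Sᶜ).ConnectedComponent ≤ S.ncard) →
    ∀ (k : ℕ) (a : Fin k → ℕ), (∀ i, 0 < a i) → ∑ i, a i = Nat.card V →
      ∃ f : V → Fin k, ∀ i, (f ⁻¹' {i}).ncard = a i ∧ (G.induce (f ⁻¹' {i})).Connected :=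
  Pool.Agent.Lib.MP_f20cd2_co.EX.tough_ap

end Pool.Agent.Results.MP_f20cd2_co.ToughAP
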