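import Pool.Agent.Lib.MP_f20cd2_co.Tough
import Pool.Agent.Lib.MP_f20cd2_co.NonAP

set_option autoImplicit false

namespace Pool.Agent.Results.MP_f20cd2_co.ToughNotAP

open Pool.Agent.Lib.MP_f20cd2_co

theorem result (t : ℝ) (ht : t < 9 / 4) :
    ∃ (U : Type) (_ : Finite U) (H : SimpleGraph U),
      (∀ S : Set U, 1 < Nat.card (H.induce Sᶜ).ConnectedComponent →
        t * Nat.card (H.induce Sᶜ).ConnectedComponent ≤ S.ncard) ∧
      ¬ (∀ (k : ℕ) (a : Fin k → ℕ), (∀ i, 0 < a i) → ∑ i, a i = Nat.card U →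
        ∃ f : U → Fin k, ∀ i, (f ⁻¹' {i}).ncard = a i ∧ (H.induce (f ⁻¹' {i})).Connected) := by
  obtain ⟨r, hr⟩ := exists_nat_ge (1 / (9 / 4 - t))
  have hr1 : 1 ≤ (9 / 4 - t) * r := by
    rw [div_le_iff₀ (by linarith)] at hr
    linarith
  have hr0 : 1 ≤ r := by
    rcases Nat.eq_zero_or_pos r with h | h
    · rw [h] at hr1
      norm_num at hr1
    · exact h
  -- q = r + 1
  refine ⟨V (1000 * (r + 1) ^ 2 * r) (2000 * (r + 1) ^ 3) (100 * (r + 1) * (10 * r + 9)),
    inferInstance, G _ _ _, ?_, ?_⟩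
  · intro S hS
    obtain ⟨I, h1, h2, h3⟩ := tough_core S hS
    have h1' : (I : ℝ) ≤ 2 * (2000 * (r + 1) ^ 3) := by exact_mod_cast h1
    have h2' : (Nat.card ((G _ _ _).induce Sᶜ).ConnectedComponent : ℝ) ≤ 1 + I := by
      exact_mod_cast h2
    have h3' : (1000 * (r + 1) ^ 2 * r + 2 * I : ℝ) ≤ S.ncard := by exact_mod_cast h3
    have hr' : (1 : ℝ) ≤ r := by exact_mod_cast hr0
    have hI : (0 : ℝ) ≤ I := Nat.cast_nonneg _
    have hp : (4000 : ℝ) ≤ 1000 * (r + 1) ^ 2 := by nlinarith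
    rcases le_total t 0 with h0 | h0
    · have : t * (Nat.card ((G _ _ _).induce Sᶜ).ConnectedComponent : ℝ) ≤ 0 :=
        mul_nonpos_of_nonpos_of_nonneg h0 (Nat.cast_nonneg _)
      exact this.trans (Nat.cast_nonneg _)
    · refine (mul_le_mul_of_nonneg_left h2' h0).trans (le_trans ?_ h3')
      rcases le_total t 2 with h4 | h4
      · nlinarith
      · have h5 : (t - 2) * I ≤ (t - 2) * (2 * (2000 * (r + 1) ^ 3)) :=
          mul_le_mul_of_nonneg_left h1' (by linarith)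
        have h6 : (t - 2) * (4 * (r + 1)) + 3 ≤ r := by nlinarith
        have h7 := mul_le_mul_of_nonneg_left h6 (by linarith : (0 : ℝ) ≤ 1000 * (r + 1) ^ 2)
        nlinarith
  · intro h
    obtain ⟨f, hf⟩ := h (r + 2 * (r + 1) * (2 * (100 * (r + 1) * (10 * r + 9)) + 6))
      (fun _ => 1000 * (r + 1) ^ 2) (fun _ => by positivity) (by
        simp only [Finset.sum_const, Finset.card_univ, Fintype.card_fin, smul_eq_mul,
          Nat.card_eq_fintype_card, Fintype.card_sum, Fintype.card_prod, Fintype.card_bool]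
        ring)
    obtain ⟨N, s, h1, h2, h3⟩ := nonAP_core (D := 100 * (r + 1)) (by ring) f hf
    have h4 : s * 100 ≤ 12000 * (r + 1) ^ 2 := by
      have : s * 100 * (r + 1) ≤ 12000 * (r + 1) ^ 2 * (r + 1) := by nlinarith
      exact Nat.le_of_mul_le_mul_right this (by omega)
    nlinarith

end Pool.Agent.Results.MP_f20cd2_co.ToughNotAP
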